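import Pool.Agent.E8helper20.CTM.StmA
import Pool.Agent.E8helper86.CTL3.SelA

/-!
# Project CTM, SELM2: the order of the Selmer group of `√-3`, type 2 (`a = √-3 ω ^ b D`)

Modelled on `E8helper86/CTL3/SelA.lean`, `SelK3.lean` and `E8helper85/CT3/Kloc3.lean`.
-/

set_option autoImplicit false
set_option linter.unusedSectionVars false
set_option linter.unusedVariables false

open scoped Classical

namespace Pool.Agent.E8helper44.CTM

open Pool.Agent.Y692.QS (Ei w nr)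
open Pool.Agent.Y715.T.Gi Pool.Agent.Y715.T.Nr Pool.Agent.Y715.T.Df Pool.Agent.Y715.T.Ell
open Pool.Agent.Y715.T.Rec (cs)
open Pool.Agent.Y715.T.RecG
open Pool.Agent.Y715.T.Sel (fac kc_mul kc_one kc_congr kc_pow kc_cube kc_uniq kc_cancel kc_unit
  kc_exp ex_root root_ne iota_sq iota_ev odd_of not_dvd_of_unr resid_kc exists_emb3
  norm_three_one)
open Pool.Agent.Y703.CT
open Pool.Agent.XL6 (SelH)
open Pool.Agent.Y48.CT.SEL (not_lam not_assoc_lam p0 pr0 esq prod_form support)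
open Pool.Agent.E8helper23.CT3.SEL (rh rh_prime rh0 rh_nd rp0 not_dvd_prod' cf_prod' prod_opt)
open Pool.Agent.E8helper41.CTK3 (cube_of_triv)
open Pool.Agent.Y155.CT (T3 jj_T3 pm_T3 jh jh_apply jj_add nsmul_tt a_mul a_cont)
open Pool.Agent.Y363.CT.SELC (exists_tw not_lt_prod)
open Pool.Agent.E8helper86.CTL3 (st1_add)
open Pool.Agent.E8helper20.CTM

variable {J : Type} [Fintype J] {π : J → Ei} {e : J → ZMod 3}
variable {i₀ : QB} {hi : i₀ ^ 2 + i₀ + 1 = 0}

/-! ### the generators -/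

lemma w3 : (w : Ei) ^ 3 = 1 := by decide

lemma w_unit : IsUnit (w : Ei) := IsUnit.of_mul_eq_one (w ^ 2) (by decide)

lemma lam_eq : lam = 1 + 2 * w := by decide

/-- the primes, `lam` and `w` -/
noncomputable def gn (π : J → Ei) : Option (Option J) → Ei
  | none => w
  | some k => rh π k

lemma gn0 (hD : Dt π e) (k : Option (Option J)) : gn π k ≠ 0 := by
  cases k with
  | none => exact w_unit.ne_zero
  | some k => exact rh0 hD k

lemma gp0 (hD : Dt π e) (f : Option (Option J) → ℕ) : ∏ k, gn π k ^ f k ≠ 0 :=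
  Finset.prod_ne_zero_iff.2 fun k _ => pow_ne_zero _ (gn0 hD k)

lemma gp_eq (f : Option (Option J) → ℕ) :
    ∏ k, gn π k ^ f k = w ^ f none * ∏ k, rh π k ^ f (some k) := by
  rw [Fintype.prod_option]
  rfl

lemma gp_eq' (f : Option (Option J) → ℕ) :
    ∏ k, gn π k ^ f k =
      w ^ f none * (lam ^ f (some none) * ∏ j, π j ^ f (some (some j))) := by
  rw [gp_eq, prod_opt (fun k => f (some k))]

lemma cf_gp (hD : Dt π e) (f : Option (Option J) → ZMod 3) : CF (∏ k, gn π k ^ (f k).val) := by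
  have h := cf_prod' hD (fun k => f (some k))
  refine ⟨gp0 hD _, fun d hd => h.2 d ?_⟩
  rw [gp_eq] at hd
  exact (w_unit.pow _).dvd_mul_left.1 hd

lemma gp_mul (f f' : Option (Option J) → ℕ) (n : ℕ) :
    (∏ k, gn π k ^ f k) * (∏ k, gn π k ^ f' k) ^ n = ∏ k, gn π k ^ (f k + f' k * n) := by
  rw [← Finset.prod_pow, ← Finset.prod_mul_distrib]
  refine Finset.prod_congr rfl fun i _ => ?_
  rw [← pow_mul, ← pow_add]

/-- the exponents of `a` -/
def AA (b : ZMod 3) (e : J → ZMod 3) : Option (Option J) → ZMod 3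
  | none => b
  | some none => 1
  | some (some j) => e j

/-- the exponents of a Selmer class -/
def YY (b : ZMod 3) (e : J → ZMod 3) (g s : ZMod 3) (v : J → ZMod 3) :
    Option (Option J) → ZMod 3
  | none => s + b * g
  | some none => g
  | some (some j) => e j * (v j + g)

/-- the system -/
def Eq2 (b : ZMod 3) (π : J → Ei) (e : J → ZMod 3) (p : (J → ZMod 3) × ZMod 3) : Prop :=
  (∀ j, ∑ i, e i * cs (π j) (π i) * (p.1 i - p.1 j) + p.2 * c2 (π j) =
    (b * c2 (π j) - c3 (π j)) * p.1 j) ∧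
  ∑ j, e j * c2 (π j) * p.1 j = b * p.2

lemma bval {b : ℕ} (hb : b ≤ 2) : ((b : ZMod 3)).val = b := by
  rw [ZMod.val_natCast, Nat.mod_eq_of_lt (by omega)]

lemma a_form {b : ℕ} (hb : b ≤ 2) :
    lam * w ^ b * pD π e = ∏ k, gn π k ^ (AA (b : ZMod 3) e k).val := by
  rw [gp_eq']
  show lam * w ^ b * pD π e = w ^ ((b : ZMod 3)).val *
    (lam ^ (1 : ZMod 3).val * ∏ j, π j ^ (e j).val)
  rw [bval hb, show (1 : ZMod 3).val = 1 from rfl]
  unfold pD
  ring

lemma a_ne (hD : Dt π e) {b : ℕ} (hb : b ≤ 2) : lam * w ^ b * pD π e ≠ 0 := by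
  rw [a_form hb]
  exact gp0 hD _

/-- the character of `a` -/
lemma kc_a2 (hD : Dt π e) {b : ℕ} (hb : b ≤ 2) {u : QB} {a : GK i₀ → ZMod 3}
    (hTw : Tw hi (lam * w ^ b * pD π e) u a) :
    Kc hi (∏ k, gn π k ^ (AA (b : ZMod 3) e k).val) (fun σ => -a σ) := by
  rw [← a_form hb]
  exact kc_of hi (root_ne (hi := hi) (z := lam * w ^ b * pD π e) (a_ne hD hb) hTw.cube)
    hTw.cube hTw.act

lemma lw_dvd (b : ℕ) : lam * w ^ b ∣ (3 : Ei) ^ 1 := by
  rw [(w_unit.pow b).mul_right_dvd, pow_one]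
  exact ⟨-lam, by decide⟩

lemma w_dvd (s n : ℕ) : w ^ s ∣ (3 : Ei) ^ n := (w_unit.pow s).dvd

/-! ### the digits -/

lemma one3 : (3 : Ei) ∣ (1 : Ei) - 1 := by rw [sub_self]; exact dvd_zero _

lemma c_one (hS : S_SUPM) : c2 1 = 0 ∧ c3 1 = 0 := by
  obtain ⟨h1, h2⟩ := hS.2 1 1 one3 one3
  rw [mul_one] at h1 h2
  exact ⟨by linear_combination -h1, by linear_combination -h2⟩

lemma c_pow (hS : S_SUPM) {α : Ei} (h : (3 : Ei) ∣ α - 1) (n : ℕ) :
    c2 (α ^ n) = n * c2 α ∧ c3 (α ^ n) = n * c3 α := by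
  induction n with
  | zero =>
    rw [pow_zero, (c_one hS).1, (c_one hS).2, Nat.cast_zero, zero_mul, zero_mul]
    exact ⟨rfl, rfl⟩
  | succ n ih =>
    obtain ⟨h1, h2⟩ := hS.2 _ _ (Pool.Agent.E8helper85.CT3.three_pow h n) h
    rw [pow_succ, h1, h2, ih.1, ih.2]
    push_cast
    exact ⟨by ring, by ring⟩

lemma c_prod (hS : S_SUPM) (hD : Dt π e) (f : J → ℕ) :
    c2 (∏ j, π j ^ f j) = ∑ j, (f j : ZMod 3) * c2 (π j) ∧
    c3 (∏ j, π j ^ f j) = ∑ j, (f j : ZMod 3) * c3 (π j) := by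
  have key : ∀ S : Finset J, (3 : Ei) ∣ ∏ j ∈ S, π j ^ f j - 1 ∧
      c2 (∏ j ∈ S, π j ^ f j) = ∑ j ∈ S, (f j : ZMod 3) * c2 (π j) ∧
      c3 (∏ j ∈ S, π j ^ f j) = ∑ j ∈ S, (f j : ZMod 3) * c3 (π j) := by
    intro S
    induction S using Finset.induction_on with
    | empty =>
      simp only [Finset.prod_empty, Finset.sum_empty]
      exact ⟨one3, c_one hS⟩
    | insert i S his ih =>
      obtain ⟨h1, h2, h3⟩ := ih
      have h4 := Pool.Agent.E8helper85.CT3.three_pow (hD.pq i).three (f i)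
      obtain ⟨h5, h6⟩ := hS.2 _ _ h4 h1
      rw [Finset.prod_insert his, Finset.sum_insert his, Finset.sum_insert his]
      refine ⟨Pool.Agent.E8helper85.CT3.three_mul h4 h1, ?_, ?_⟩
      · rw [h5, h2, (c_pow hS (hD.pq i).three (f i)).1]
      · rw [h6, h3, (c_pow hS (hD.pq i).three (f i)).2]
  exact (key Finset.univ).2

/-! ### the symbols -/

lemma not_w {ρ : Ei} (h : Prime ρ) : ¬ ρ ∣ w := fun h1 =>
  h.not_isUnit (isUnit_of_dvd_unit h1 w_unit)

lemma cs_w (hS : S_SUPM) {ρ : Ei} (h : Pq ρ) : cs ρ w = c2 ρ := (hS.1 ρ h).1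

lemma cs_lam (hS : S_SUPM) {ρ : Ei} (h : Pq ρ) : cs ρ lam = -c3 ρ := by
  rw [lam_eq]
  exact (hS.1 ρ h).2.1

/-- the equation at `π j` -/
lemma cs_form (hS : S_SUPM) (hD : Dt π e) (j : J) (y : Option (Option J) → ZMod 3)
    (hyj : y (some (some j)) = 0)
    (hc : ∃ z, π j ∣ ∏ k, gn π k ^ (y k).val - z ^ 3) :
    y none * c2 (π j) - y (some none) * c3 (π j) +
      ∑ i, y (some (some i)) * cs (π j) (π i) = 0 := by
  have h9 := (hD.pq j).norm
  have hpj := (hD.pq j).prime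
  have e2 : ∏ k, gn π k ^ (y k).val = w ^ (y none).val * (lam ^ (y (some none)).val *
      ∏ i ∈ Finset.univ.erase j, π i ^ (y (some (some i))).val) := by
    rw [gp_eq', ← Finset.mul_prod_erase Finset.univ (fun i => π i ^ (y (some (some i))).val)
      (Finset.mem_univ j), hyj, ZMod.val_zero, pow_zero, one_mul]
  rw [e2] at hc
  have hnw : ¬ π j ∣ w := not_w hpj
  have hnwp : ¬ π j ∣ w ^ (y none).val := fun h1 => hnw (hpj.dvd_of_dvd_pow h1)
  have hnl : ¬ π j ∣ lam := not_lam (hD.pq j)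
  have hnlp : ¬ π j ∣ lam ^ (y (some none)).val := fun h1 => hnl (hpj.dvd_of_dvd_pow h1)
  have hnd := Pool.Agent.Y48.CT.SEL.not_dvd_prod hD j (fun i => (y (some (some i))).val)
  have hnd2 : ¬ π j ∣ lam ^ (y (some none)).val *
      ∏ i ∈ Finset.univ.erase j, π i ^ (y (some (some i))).val := by
    intro h1
    rcases hpj.dvd_or_dvd h1 with h2 | h2
    · exact hnlp h2
    · exact hnd h2
  have hnd3 : ¬ π j ∣ w ^ (y none).val * (lam ^ (y (some none)).val *
      ∏ i ∈ Finset.univ.erase j, π i ^ (y (some (some i))).val) := by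
    intro h1
    rcases hpj.dvd_or_dvd h1 with h2 | h2
    · exact hnwp h2
    · exact hnd2 h2
  have hcs := (cs_zero_iff hpj h9 hnd3).2 hc
  have hnd1 : ∀ i ∈ Finset.univ.erase j, ¬ π j ∣ π i := fun i hij =>
    hD.nd i j (Finset.ne_of_mem_erase hij)
  rw [cs_mul hpj h9 hnwp hnd2, cs_mul hpj h9 hnlp hnd, cs_pow hpj h9 hnw, cs_pow hpj h9 hnl,
    ZMod.natCast_zmod_val, ZMod.natCast_zmod_val, cs_w hS (hD.pq j), cs_lam hS (hD.pq j),
    cs_prod hpj h9 _ _ (fun i hij h1 => hnd1 i hij (hpj.dvd_of_dvd_pow h1))] at hcs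
  have e3 : ∑ i ∈ Finset.univ.erase j, cs (π j) (π i ^ (y (some (some i))).val) =
      ∑ i, y (some (some i)) * cs (π j) (π i) := by
    rw [← Finset.add_sum_erase Finset.univ _ (Finset.mem_univ j), hyj, zero_mul, zero_add]
    refine Finset.sum_congr rfl fun i hij => ?_
    rw [cs_pow hpj h9 (hnd1 i hij), ZMod.natCast_zmod_val]
  rw [e3] at hcs
  linear_combination hcs

/-! ### a Selmer character comes from the system -/

theorem sel_ker2 (hS : S_SUPM) (hR : S_RAMM) (hL : S_LOCM2) {b : ℕ} (hb : b ≤ 2)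
    (hD : Dt π e) {u : QB} {a : GK i₀ → ZMod 3} (hTw : Tw hi (lam * w ^ b * pD π e) u a)
    {h : GK i₀ → ZMod 3} (hc : IsLocallyConstant h) (hm : ∀ σ τ, h (σ * τ) = h σ + h τ)
    (hloc : ∀ (p : ℕ) [Fact p.Prime] (ι : QB →ₐ[ℚ] PadicAlgCl p), ∃ R, St1 hi ι a h R) :
    ∃ (g : ZMod 3) (p : (J → ZMod 3) × ZMod 3), Eq2 (b : ZMod 3) π e p ∧
      Kc hi (∏ k, gn π k ^ (YY (b : ZMod 3) e g p.2 p.1 k).val) h := by
  have hka := kc_a2 hD hb hTw
  obtain ⟨hR1, hR2, -⟩ := hR (lam * w ^ b) 1 1 (lw_dvd b) (one_dvd _) J π e hD i₀ hi u a hTw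
  obtain ⟨z, hz, hzh⟩ := kum hi h hc hm
  obtain ⟨v₀, g, x, hu, ez⟩ := fac (π := π) z hz.1 (support hD hz hzh
    (fun p _ ι hp3 hpj τ σ hcc hτ => by
      obtain ⟨R, hR⟩ := hloc p ι
      exact (hR2 h p ι hp3 hpj R hR τ σ hcc hτ).2))
  rw [ez] at hzh
  obtain ⟨c, hc0⟩ := Pool.Agent.Y715.T.RecC.unit_form hu
  obtain ⟨ι₃⟩ := exists_emb3
  obtain ⟨q, hq⟩ := prod_form hD x
  have hq' : ∏ j, π j ^ x j = 1 + 3 * q := by rw [← hq]; ring
  -- the exponents
  set X : Option (Option J) → ℕ := fun k => k.elim c.val (fun k' => k'.elim g x) with hX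
  have hx : Kc hi (∏ k, gn π k ^ X k) h := by
    have e1 : ∏ k, gn π k ^ X k = w ^ c.val * (lam ^ g * ∏ j, π j ^ x j) := gp_eq' X
    have hz1 : Kc hi (w ^ c.val * (lam ^ g * ∏ j, π j ^ x j)) h := by
      have h0 : w ^ c.val * (lam ^ g * ∏ j, π j ^ x j) ≠ 0 := by
        rw [← e1]
        exact gp0 hD X
      rcases hc0 with hc1 | hc1
      · refine kc_unit h0 (Or.inl rfl) ?_
        rw [one_mul]
        rw [hc1] at hzh
        rw [← mul_assoc]
        exact hzh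
      · refine kc_unit h0 (Or.inr rfl) ?_
        rw [hc1] at hzh
        have e2 : -1 * (w ^ c.val * (lam ^ g * ∏ j, π j ^ x j)) =
            -w ^ c.val * lam ^ g * ∏ j, π j ^ x j := by ring
        rw [e2]
        exact hzh
    rw [e1]
    exact hz1
  set v : J → ZMod 3 := fun j => x j * e j - g with hv
  have hxv : ∀ j, (x j : ZMod 3) = e j * (v j + g) := by
    intro j
    have := esq hD j
    calc (x j : ZMod 3) = x j * (e j * e j) := by rw [this, mul_one]
      _ = _ := by rw [hv]; ring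
  set s : ZMod 3 := c - b * g with hs
  have hX2 : ∀ k, (X k : ZMod 3) = YY (b : ZMod 3) e g s v k := by
    intro k
    match k with
    | none =>
      show ((c.val : ℕ) : ZMod 3) = s + b * g
      rw [ZMod.natCast_zmod_val, hs]
      ring
    | some none => rfl
    | some (some j) => exact hxv j
  refine ⟨g, (v, s), ⟨fun j => ?_, ?_⟩, kc_exp (gn0 hD) (fun k => ?_) hx⟩
  · -- the equation at `π j`
    obtain ⟨p, hp, ι, hl⟩ := exists_emb hi (hD.pq j).prime
    have hp3 := odd_of hi ι (hD.pq j).prime hl (not_assoc_lam (hD.pq j))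
    obtain ⟨R, hR⟩ := hloc p ι
    obtain ⟨ε, hε⟩ := hR1 h j p ι hl R hR
    set n : ℕ := ε.val with hn
    have hn3 : (n : ZMod 3) = ε := ZMod.natCast_zmod_val _
    have hy := kc_mul (gp0 hD X) (pow_ne_zero n (gp0 hD _)) hx (kc_pow (gp0 hD _) hka n)
    have hy1 : ∀ (τ : Au p) (σ : GK i₀), Cmp ι τ σ → h σ + n * -a σ = 0 := by
      intro τ σ hcc
      rw [hε τ σ hcc, hn3]
      ring
    rw [gp_mul] at hy
    set y : Option (Option J) → ZMod 3 := fun i => X i + AA (b : ZMod 3) e i * ε with hydef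
    have hy2 : Kc hi (∏ i, gn π i ^ (y i).val) (fun σ => h σ + n * -a σ) := by
      refine kc_exp (gn0 hD) (fun i => ?_) hy
      rw [ZMod.natCast_zmod_val, hydef]
      push_cast
      rw [hn3, ZMod.natCast_zmod_val]
    have hyj : y (some (some j)) = 0 := by
      have h1 := not_dvd_of_unr (cf_gp hD y) hy2 hp3 ι (hD.pq j).prime hl
        (fun τ σ hcc _ => hy1 τ σ hcc)
      by_contra hne
      apply h1
      refine dvd_trans (dvd_pow_self (π j) ?_) (Finset.dvd_prod_of_mem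
        (fun i => gn π i ^ (y i).val) (Finset.mem_univ (some (some j))))
      rwa [Ne, ZMod.val_eq_zero]
    have hεv : ε = -(v j + g) := by
      have h1 : (x j : ZMod 3) + e j * ε = 0 := hyj
      have h2 := esq hD j
      rw [hxv j] at h1
      linear_combination e j * h1 - (v j + g + ε) * h2
    have hyi : ∀ i, y (some (some i)) = e i * (v i - v j) := by
      intro i
      change (x i : ZMod 3) + e i * ε = _
      rw [hxv i, hεv]
      ring
    have hy0 : y (some none) = -v j := by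
      change (g : ZMod 3) + 1 * ε = _
      rw [hεv]
      ring
    have hyw : y none = s - b * v j := by
      change ((c.val : ℕ) : ZMod 3) + b * ε = _
      rw [ZMod.natCast_zmod_val, hεv, hs]
      ring
    have hcs := cs_form hS hD j y hyj (resid_kc hy2 hp3 ι (hD.pq j).prime hl hy1)
    rw [hyw, hy0] at hcs
    simp only [hyi] at hcs
    have e3 : ∑ i, e i * (v i - v j) * cs (π j) (π i) =
        ∑ i, e i * cs (π j) (π i) * (v i - v j) :=
      Finset.sum_congr rfl fun i _ => by ring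
    rw [e3] at hcs
    show ∑ i, e i * cs (π j) (π i) * (v i - v j) + s * c2 (π j) =
      (b * c2 (π j) - c3 (π j)) * v j
    linear_combination hcs
  · -- the equation at three
    obtain ⟨R, hR⟩ := hloc 3 ι₃
    have hzh' := hzh
    rw [hq'] at hzh'
    have h1 := hL b hb i₀ hi (pD π e) (prod_form hD _) u a hTw h v₀ q g c.val hc0 hzh'
      inferInstance ι₃ R hR
    rw [← hq', (c_prod hS hD x).1, ZMod.natCast_zmod_val] at h1
    have h2 : c2 (pD π e) = ∑ j, e j * c2 (π j) := by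
      unfold pD
      rw [(c_prod hS hD _).1]
      exact Finset.sum_congr rfl fun j _ => by rw [ZMod.natCast_zmod_val]
    rw [h2] at h1
    have h3 : ∑ j, (x j : ZMod 3) * c2 (π j) =
        ∑ j, e j * c2 (π j) * v j + g * ∑ j, e j * c2 (π j) := by
      rw [Finset.mul_sum, ← Finset.sum_add_distrib]
      refine Finset.sum_congr rfl fun j _ => ?_
      rw [hxv j]
      ring
    rw [h3] at h1
    show ∑ j, e j * c2 (π j) * v j = b * s
    rw [hs]
    linear_combination h1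
  · rw [ZMod.natCast_zmod_val]
    exact hX2 k

/-! ### uniqueness -/

lemma cube_unit {t : ℕ} {y z : Ei} (hy : y ≠ 0) (h : w ^ t * y ^ 3 = z ^ 3) :
    (t : ZMod 3) = 0 := by
  have h1 : y ^ 3 ∣ z ^ 3 := by rw [← h]; exact Dvd.intro_left _ rfl
  have h2 : y ∣ z := (IsIntegrallyClosed.pow_dvd_pow_iff three_ne_zero).1 h1
  obtain ⟨x, rfl⟩ := h2
  have h3 : w ^ t = x ^ 3 := by
    have h4 : w ^ t * y ^ 3 = x ^ 3 * y ^ 3 := by rw [h]; ring
    exact mul_right_cancel₀ (pow_ne_zero 3 hy) h4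
  have hx : IsUnit x := by
    have h4 : IsUnit (x ^ 3) := by rw [← h3]; exact w_unit.pow t
    exact (isUnit_pow_iff three_ne_zero).1 h4
  obtain ⟨c, hc⟩ := Pool.Agent.Y715.T.RecC.unit_form hx
  have h5 : x ^ 3 = 1 ∨ x ^ 3 = -1 := by
    rcases hc with hc | hc
    · left
      rw [hc, ← pow_mul, mul_comm, pow_mul, w3, one_pow]
    · right
      rw [hc, Odd.neg_pow (by decide), ← pow_mul, mul_comm, pow_mul, w3, one_pow]
  have h6 : (w : Ei) ^ t = w ^ ((t : ZMod 3)).val := by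
    rw [ZMod.val_natCast]
    conv_lhs => rw [← Nat.div_add_mod t 3, pow_add, pow_mul, w3, one_pow, one_mul]
  rw [← h3, h6] at h5
  generalize (t : ZMod 3) = d at h5
  revert h5 d
  decide

lemma exp2 (hD : Dt π e) (f : Option (Option J) → ℕ) {h : GK i₀ → ZMod 3}
    (hk : Kc hi (∏ k, gn π k ^ f k) h) (h0 : ∀ σ, h σ = 0) (k : Option (Option J)) :
    (f k : ZMod 3) = 0 := by
  have hs : ∀ k : Option J, (f (some k) : ZMod 3) = 0 := by
    intro k
    obtain ⟨y, z, hy, hyz⟩ := cube_of_triv hk h0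
    have hp := rh_prime hD k
    have hz : z ≠ 0 := by
      rintro rfl
      rw [zero_pow three_ne_zero] at hyz
      exact mul_ne_zero (gp0 hD f) (pow_ne_zero 3 hy) hyz
    have hf : ∀ t : Ei, t ≠ 0 → FiniteMultiplicity (rh π k) t := fun t ht =>
      FiniteMultiplicity.of_prime_left hp ht
    have hnd := not_dvd_prod' hD k (fun k => f (some k))
    have hr0 : ∏ i ∈ Finset.univ.erase k, rh π i ^ f (some i) ≠ 0 :=
      Finset.prod_ne_zero_iff.2 fun i _ => pow_ne_zero _ (rh0 hD i)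
    have hk0 : rh π k ^ f (some k) ≠ 0 := pow_ne_zero _ (rh0 hD k)
    have hy3 : y ^ 3 ≠ 0 := pow_ne_zero 3 hy
    have hw0 : w ^ f none ≠ 0 := pow_ne_zero _ w_unit.ne_zero
    have hnw : ¬ rh π k ∣ w ^ f none := fun h1 =>
      hp.not_isUnit (isUnit_of_dvd_unit h1 (w_unit.pow _))
    rw [gp_eq] at hyz
    have h1 := congrArg (multiplicity (rh π k)) hyz
    rw [← Finset.mul_prod_erase Finset.univ (fun i => rh π i ^ f (some i)) (Finset.mem_univ k)]
      at h1
    rw [multiplicity_mul hp (hf _ (mul_ne_zero (mul_ne_zero hw0 (mul_ne_zero hk0 hr0)) hy3)),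
      multiplicity_mul hp (hf _ (mul_ne_zero hw0 (mul_ne_zero hk0 hr0))),
      multiplicity_mul hp (hf _ (mul_ne_zero hk0 hr0)),
      multiplicity_pow_self_of_prime hp, multiplicity_eq_zero.2 hnd, multiplicity_eq_zero.2 hnw,
      (hf y hy).multiplicity_pow hp, (hf z hz).multiplicity_pow hp] at h1
    have h2 : 3 ∣ f (some k) := by omega
    exact (ZMod.natCast_eq_zero_iff _ _).2 h2
  cases k with
  | some k => exact hs k
  | none =>
    have h1 : Kc hi (∏ k, gn π k ^ (k.elim (f none) (fun _ => 0))) h := by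
      refine kc_exp (gn0 hD) (fun k => ?_) hk
      cases k with
      | none => rfl
      | some k =>
        rw [hs k]
        show (0 : ZMod 3) = ((0 : ℕ) : ZMod 3)
        rw [Nat.cast_zero]
    have e1 : ∏ k, gn π k ^ (k.elim (f none) (fun _ => 0)) = w ^ f none := by
      rw [gp_eq]
      show w ^ f none * ∏ k, rh π k ^ 0 = _
      simp
    rw [e1] at h1
    obtain ⟨y, z, hy, hyz⟩ := cube_of_triv h1 h0
    exact cube_unit hy hyz

/-- the data are determined by the character -/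
theorem uniq2 (hD : Dt π e) {b g g' : ZMod 3} {p p' : (J → ZMod 3) × ZMod 3}
    {h : GK i₀ → ZMod 3}
    (h1 : Kc hi (∏ k, gn π k ^ (YY b e g p.2 p.1 k).val) h)
    (h2 : Kc hi (∏ k, gn π k ^ (YY b e g' p'.2 p'.1 k).val) h) : g = g' ∧ p = p' := by
  have hy := kc_mul (gp0 hD _) (pow_ne_zero 2 (gp0 hD _)) h1 (kc_pow (gp0 hD _) h2 2)
  rw [gp_mul] at hy
  have t3 : (3 : ZMod 3) = 0 := by decide
  have h3 : ∀ k, YY b e g p.2 p.1 k = YY b e g' p'.2 p'.1 k := by
    intro k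
    have h5 := exp2 hD _ hy (fun σ => by
      show h σ + ((2 : ℕ) : ZMod 3) * h σ = 0
      push_cast
      linear_combination (h σ) * t3) k
    push_cast at h5
    rw [ZMod.natCast_zmod_val, ZMod.natCast_zmod_val] at h5
    linear_combination h5 - (YY b e g' p'.2 p'.1 k) * t3
  have hg : g = g' := h3 (some none)
  have hs : p.2 + b * g = p'.2 + b * g' := h3 none
  rw [hg] at hs
  refine ⟨hg, Prod.ext (funext fun j => ?_) (add_right_cancel hs)⟩
  have h6 : e j * (p.1 j + g) = e j * (p'.1 j + g') := h3 (some (some j))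
  rw [hg] at h6
  have h7 := esq hD j
  linear_combination e j * h6 + (p'.1 j - p.1 j) * h7

/-! ### the system gives Selmer characters -/

/-- the digits of the element attached to a solution -/
lemma dig (hREC : S_REC) (hS : S_SUPM) (hD : Dt π e) {b : ZMod 3}
    {p : (J → ZMod 3) × ZMod 3} (hp : Eq2 b π e p) :
    c2 (∏ j, π j ^ (e j * p.1 j).val) = b * p.2 ∧
    c3 (∏ j, π j ^ (e j * p.1 j).val) = (b ^ 2 - c2 (pD π e)) * p.2 := by
  obtain ⟨v, s⟩ := p
  obtain ⟨hv, h3⟩ := hp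
  simp only at hv h3 ⊢
  have e2 : c2 (∏ j, π j ^ (e j * v j).val) = ∑ j, e j * c2 (π j) * v j := by
    rw [(c_prod hS hD _).1]
    refine Finset.sum_congr rfl fun j _ => ?_
    rw [ZMod.natCast_zmod_val]
    ring
  have e3 : c3 (∏ j, π j ^ (e j * v j).val) = ∑ j, e j * c3 (π j) * v j := by
    rw [(c_prod hS hD _).2]
    refine Finset.sum_congr rfl fun j _ => ?_
    rw [ZMod.natCast_zmod_val]
    ring
  have eD : c2 (pD π e) = ∑ j, e j * c2 (π j) := by
    unfold pD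
    rw [(c_prod hS hD _).1]
    exact Finset.sum_congr rfl fun j _ => by rw [ZMod.natCast_zmod_val]
  have h0 : ∑ j, ∑ i, e j * (e i * cs (π j) (π i) * (v i - v j)) = 0 := by
    have h3 : ∑ j, ∑ i, e j * (e i * cs (π j) (π i) * (v i - v j)) =
        -∑ j, ∑ i, e j * (e i * cs (π j) (π i) * (v i - v j)) := by
      conv_lhs => rw [Finset.sum_comm]
      rw [← Finset.sum_neg_distrib]
      refine Finset.sum_congr rfl fun i _ => ?_
      rw [← Finset.sum_neg_distrib]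
      refine Finset.sum_congr rfl fun j _ => ?_
      by_cases hij : i = j
      · rw [hij, sub_self, mul_zero, mul_zero, neg_zero]
      · rw [hREC (π i) (π j) (hD.pq i) (hD.pq j) (hD.nd i j hij)]
        ring
    exact (by decide : ∀ x : ZMod 3, x = -x → x = 0) _ h3
  have h4 : ∑ j, e j * (∑ i, e i * cs (π j) (π i) * (v i - v j) + s * c2 (π j)) =
      ∑ j, e j * ((b * c2 (π j) - c3 (π j)) * v j) :=
    Finset.sum_congr rfl fun j _ => by rw [hv j]
  have h5 : ∑ j, e j * (∑ i, e i * cs (π j) (π i) * (v i - v j) + s * c2 (π j)) =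
      s * ∑ j, e j * c2 (π j) := by
    have h6 : ∑ j, e j * (∑ i, e i * cs (π j) (π i) * (v i - v j) + s * c2 (π j)) =
        ∑ j, ∑ i, e j * (e i * cs (π j) (π i) * (v i - v j)) + ∑ j, s * (e j * c2 (π j)) := by
      rw [← Finset.sum_add_distrib]
      refine Finset.sum_congr rfl fun j _ => ?_
      rw [mul_add, Finset.mul_sum]
      ring
    rw [h6, h0, zero_add, Finset.mul_sum]
  have h7 : ∑ j, e j * ((b * c2 (π j) - c3 (π j)) * v j) =
      b * ∑ j, e j * c2 (π j) * v j - ∑ j, e j * c3 (π j) * v j := by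
    rw [Finset.mul_sum, ← Finset.sum_sub_distrib]
    exact Finset.sum_congr rfl fun j _ => by ring
  rw [h5, h7, h3] at h4
  rw [e2, e3, eD]
  exact ⟨h3, by linear_combination h4⟩

lemma not_lt_w {p : ℕ} [Fact p.Prime] {I : PadicAlgCl p} (hI : I ^ 2 + I + 1 = 0) (n : ℕ) :
    ‖ev I hI w ^ n‖ = 1 := by
  have h1 : ev I hI w ^ 3 = 1 := by rw [← map_pow, w3, map_one]
  have h2 : ‖ev I hI w‖ = 1 := by
    have h3 : ‖ev I hI w‖ ^ 3 = 1 := by rw [← norm_pow, h1, norm_one]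
    exact (pow_eq_one_iff_of_nonneg (norm_nonneg _) three_ne_zero).1 h3
  rw [norm_pow, h2, one_pow]

lemma norm_lam {p : ℕ} [Fact p.Prime] (hp3 : p ≠ 3) {I : PadicAlgCl p}
    (hI : I ^ 2 + I + 1 = 0) : ‖ev I hI lam‖ = 1 := by
  have h1 : ev I hI lam ^ 2 = -3 := by rw [← map_pow, lam_sq, map_neg, map_ofNat]
  have h3 : ‖ev I hI lam‖ ^ 2 = 1 := by rw [← norm_pow, h1, norm_neg, norm_three_one hp3]
  exact (pow_eq_one_iff_of_nonneg (norm_nonneg _) two_ne_zero).1 h3

/-- a solution gives a locally solvable character -/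
theorem kloc2 (hREC : S_REC) (hS : S_SUPM) (hR : S_RAMM) (hCUB2 : S_CUBM2) (hFF : S_FF)
    (hCUB : S_CUB) (hPT : S_PT) {b : ℕ} (hb : b ≤ 2) (hD : Dt π e) {u : QB}
    {a : GK i₀ → ZMod 3} (hTw : Tw hi (lam * w ^ b * pD π e) u a)
    {v : J → ZMod 3} {s : ZMod 3} (hv : Eq2 (b : ZMod 3) π e (v, s)) {h : GK i₀ → ZMod 3}
    (hKc : Kc hi (w ^ s.val * ∏ j, π j ^ (e j * v j).val) h)
    (p : ℕ) [Fact p.Prime] (ι : QB →ₐ[ℚ] PadicAlgCl p) : ∃ R, St1 hi ι a h R := by
  have hB0 : w ^ s.val * (∏ j, π j ^ (e j * v j).val) ≠ 0 :=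
    mul_ne_zero (pow_ne_zero _ w_unit.ne_zero) (pr0 hD _)
  have hD0 : lam * w ^ b * pD π e ≠ 0 := a_ne hD hb
  by_cases hp3 : p = 3
  · subst hp3
    obtain ⟨h2, h3⟩ := dig hREC hS hD hv
    simp only at h2 h3
    refine hPT i₀ hi _ _ hB0 hD0 u a hTw _ hKc 3 ι
      (hCUB2 b hb inferInstance (ι i₀) (iota_sq' hi ι) _ _ s.val (prod_form hD _)
        (prod_form hD _) ?_ ?_)
    · rw [ZMod.natCast_zmod_val]
      exact h2
    · rw [ZMod.natCast_zmod_val]
      exact h3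
  · by_cases hj : ∃ j, ‖ι (ev i₀ hi (π j))‖ < 1
    · obtain ⟨j, hj⟩ := hj
      obtain ⟨-, -, hR3⟩ := hR (lam * w ^ b) (w ^ s.val) 1 (lw_dvd b) (w_dvd _ _) J π e hD i₀ hi
        u a hTw
      refine hR3 v h hKc j ?_ p ι hj
      have h9 := (hD.pq j).norm
      have hpj := (hD.pq j).prime
      have hnw := not_w hpj
      have hnwp : ¬ π j ∣ w ^ b := fun h1 => hnw (hpj.dvd_of_dvd_pow h1)
      rw [cs_mul hpj h9 (not_lam (hD.pq j)) hnwp, cs_pow hpj h9 hnw, cs_pow hpj h9 hnw,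
        ZMod.natCast_zmod_val, cs_w hS (hD.pq j), cs_lam hS (hD.pq j)]
      have h1 := hv.1 j
      simp only at h1
      linear_combination h1
    · have hj' : ∀ j, ¬ ‖ev (ι i₀) (iota_sq' hi ι) (π j)‖ < 1 := by
        intro j h1
        apply hj
        refine ⟨j, ?_⟩
        rw [iota_ev]
        exact h1
      have h3 : ¬ ‖ev (ι i₀) (iota_sq' hi ι) (lam * w ^ b * pD π e)‖ < 1 := by
        have h4 : ¬ ‖ev (ι i₀) (iota_sq' hi ι) (pD π e)‖ < 1 := not_lt_prod _ hj' _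
        rw [map_mul, map_mul, map_pow, norm_mul, norm_mul, norm_lam hp3, not_lt_w, one_mul,
          one_mul]
        exact h4
      have h5 : ¬ ‖ev (ι i₀) (iota_sq' hi ι) (w ^ s.val * ∏ j, π j ^ (e j * v j).val)‖ < 1 := by
        rw [map_mul, map_pow, norm_mul, not_lt_w, one_mul]
        exact not_lt_prod _ hj' _
      exact hPT i₀ hi _ _ hB0 hD0 u a hTw _ hKc p ι
        (hCUB hFF p hp3 (ι i₀) (iota_sq' hi ι) _ _ h5 h3)

/-- the solutions give Selmer characters -/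
theorem ker_sel2 (hREC : S_REC) (hS : S_SUPM) (hR : S_RAMM) (hCUB2 : S_CUBM2) (hFF : S_FF)
    (hCUB : S_CUB) (hPT : S_PT) {b : ℕ} (hb : b ≤ 2) (hD : Dt π e) {u : QB}
    {a : GK i₀ → ZMod 3} (hTw : Tw hi (lam * w ^ b * pD π e) u a)
    {p : (J → ZMod 3) × ZMod 3} (hv : Eq2 (b : ZMod 3) π e p) (g : ZMod 3) :
    ∃ h : GK i₀ → ZMod 3, h ∈ SelH hi a ∧
      Kc hi (∏ k, gn π k ^ (YY (b : ZMod 3) e g p.2 p.1 k).val) h := by
  obtain ⟨v, s⟩ := p
  have hne : lam * w ^ b * pD π e ≠ 0 := a_ne hD hb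
  have hB0 : w ^ s.val * (∏ j, π j ^ (e j * v j).val) ≠ 0 :=
    mul_ne_zero (pow_ne_zero _ w_unit.ne_zero) (pr0 hD _)
  obtain ⟨β, a', hTw'⟩ := exists_tw (hi := hi) (w ^ s.val * ∏ j, π j ^ (e j * v j).val)
  have hm : ∀ σ τ : GK i₀, -a' (σ * τ) = -a' σ + -a' τ := by
    intro σ τ
    rw [a_mul hB0 hTw' σ τ]
    ring
  have hc : IsLocallyConstant (fun σ : GK i₀ => -a' σ) :=
    (a_cont hB0 hTw').comp (fun c : ZMod 3 => -c)
  have hKc : Kc hi (w ^ s.val * ∏ j, π j ^ (e j * v j).val) (fun σ => -a' σ) :=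
    kc_of hi (root_ne (hi := hi) hB0 hTw'.cube) hTw'.cube hTw'.act
  have hloc : ∀ (p : ℕ) [Fact p.Prime] (ι : QB →ₐ[ℚ] PadicAlgCl p),
      ∃ R, St1 hi ι a (fun σ => -a' σ) R := fun p _ ι =>
    kloc2 hREC hS hR hCUB2 hFF hCUB hPT hb hD hTw hv hKc p ι
  have hka := kc_a2 hD hb hTw
  refine ⟨fun σ => -a' σ + g * -a σ, ⟨?_, fun σ τ => ?_, fun p _ ι => ?_⟩, ?_⟩
  · exact hc.add ((a_cont hne hTw).comp (fun c : ZMod 3 => g * -c))
  · show -a' (σ * τ) + g * -a (σ * τ) = _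
    rw [hm σ τ, a_mul hne hTw σ τ]
    ring
  · obtain ⟨R, hR⟩ := hloc p ι
    exact ⟨_, st1_add hR g⟩
  · have h1 := kc_mul hB0 (pow_ne_zero g.val (gp0 hD _)) hKc (kc_pow (gp0 hD _) hka g.val)
    have e0 : w ^ s.val * (∏ j, π j ^ (e j * v j).val) =
        ∏ k : Option (Option J), gn π k ^
          (k.elim s.val (fun k' => k'.elim 0 (fun j => (e j * v j).val))) := by
      rw [gp_eq']
      show _ = w ^ s.val * (lam ^ 0 * _)
      rw [pow_zero, one_mul]
      rfl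
    rw [e0, gp_mul] at h1
    refine kc_congr (kc_exp (gn0 hD) (fun k => ?_) h1) (fun σ => ?_)
    · push_cast
      rw [ZMod.natCast_zmod_val, ZMod.natCast_zmod_val, ZMod.natCast_zmod_val]
      match k with
      | none =>
        show ((s.val : ℕ) : ZMod 3) + b * g = s + b * g
        rw [ZMod.natCast_zmod_val]
      | some none =>
        show ((0 : ℕ) : ZMod 3) + 1 * g = g
        rw [Nat.cast_zero, zero_add, one_mul]
      | some (some j) =>
        show (((e j * v j).val : ℕ) : ZMod 3) + e j * g = e j * (v j + g)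
        rw [ZMod.natCast_zmod_val]
        ring
    · show -a' σ + g * -a σ = -a' σ + ((g.val : ℕ) : ZMod 3) * -a σ
      rw [ZMod.natCast_zmod_val]

/-- **SELM2.** -/
theorem t_SELM2 : S_SELM2 := by
  intro hREC hS hR hL hCUB2 hFF hCUB hPT b hb J _ _ π e hD i₀ hi u a hTw
  have h2 : ∀ x : ZMod 3 × {p : (J → ZMod 3) × ZMod 3 // Eq2 (b : ZMod 3) π e p},
      ∃ h : SelH hi a, Kc hi (∏ k, gn π k ^ (YY (b : ZMod 3) e x.1 x.2.1.2 x.2.1.1 k).val) h.1 := by
    rintro ⟨g, p, hp⟩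
    obtain ⟨h, h3, h4⟩ := ker_sel2 hREC hS hR hCUB2 hFF hCUB hPT hb hD hTw hp g
    exact ⟨⟨h, h3⟩, h4⟩
  choose f hf using h2
  have hbij : Function.Bijective f := by
    constructor
    · intro x y hxy
      obtain ⟨h3, h4⟩ := uniq2 hD (hf x) (by rw [hxy]; exact hf y)
      exact Prod.ext h3 (Subtype.ext h4)
    · rintro ⟨h, hs⟩
      obtain ⟨hc, hm, hloc⟩ := id hs
      obtain ⟨g, p, hp, hk⟩ := sel_ker2 hS hR hL hb hD hTw hc hm hloc
      refine ⟨(g, ⟨p, hp⟩), ?_⟩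
      have h5 : Kc hi (∏ k, gn π k ^ (YY (b : ZMod 3) e g p.2 p.1 k).val) (f (g, ⟨p, hp⟩)).1 :=
        hf (g, ⟨p, hp⟩)
      have h6 : ∀ σ, (f (g, ⟨p, hp⟩)).1 σ = h σ := fun σ =>
        kc_uniq (gp0 hD _) h5 hk σ
      exact Subtype.ext (funext h6)
  rw [← Nat.card_coe_set_eq, ← Nat.card_congr (Equiv.ofBijective f hbij), Nat.card_prod,
    Nat.card_zmod]
  rfl

end Pool.Agent.E8helper44.CTM
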