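import Pool.Agent.E8helper20.CTM.StmX
import Pool.Agent.E8helper44.CTM.SelM2

/-!
# Project CTM, SELM0: the order of the Selmer group of `√-3`, multiplier `1`
-/

set_option autoImplicit false
set_option linter.unusedSectionVars false
set_option linter.unusedVariables false

open scoped Classical

namespace Pool.Agent.E8helper44.CTM

open Pool.Agent.Y692.QS (Ei w nr)
open Pool.Agent.Y715.T.Gi Pool.Agent.Y715.T.Nr Pool.Agent.Y715.T.Df Pool.Agent.Y715.T.Ell
open Pool.Agent.Y715.T.Rec (cs)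
open Pool.Agent.Y715.T.RecG
open Pool.Agent.Y715.T.Sel (fac kc_mul kc_one kc_congr kc_pow kc_cube kc_uniq kc_cancel kc_unit
  kc_exp ex_root root_ne iota_sq iota_ev odd_of not_dvd_of_unr resid_kc exists_emb3
  norm_three_one)
open Pool.Agent.Y703.CT
open Pool.Agent.XL6 (SelH KerV sel_card)
open Pool.Agent.Y48.CT.SEL (not_lam not_assoc_lam p0 pr0 esq prod_form support)
open Pool.Agent.E8helper23.CT3.SEL (rh rh_prime rh0 rh_nd rp0 not_dvd_prod' cf_prod' prod_opt)
open Pool.Agent.Y155.CT (a_mul a_cont)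
open Pool.Agent.Y363.CT.SELC (exists_tw not_lt_prod)
open Pool.Agent.E8helper20.CTM

variable {J : Type} [Fintype J] {π : J → Ei} {e : J → ZMod 3}
variable {i₀ : QB} {hi : i₀ ^ 2 + i₀ + 1 = 0}

/-- the system -/
def Eq0 (π : J → Ei) (e : J → ZMod 3) (p : (J → ZMod 3) × ZMod 3) : Prop :=
  (∀ j, ∑ i, e i * cs (π j) (π i) * (p.1 i - p.1 j) + p.2 * c2 (π j) = 0) ∧
  (∑ j, e j * c2 (π j) = 0 →
    ∑ j, e j * c2 (π j) * p.1 j + (∑ j, e j * c3 (π j)) * p.2 = 0)

/-- the exponents of `D` -/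
def A0 (e : J → ZMod 3) : Option (Option J) → ZMod 3
  | none => 0
  | some none => 0
  | some (some j) => e j

/-- the exponents of a Selmer class -/
def Y0 (e : J → ZMod 3) (s : ZMod 3) (v : J → ZMod 3) : Option (Option J) → ZMod 3
  | none => s
  | some none => 0
  | some (some j) => e j * v j

lemma d_form : pD π e = ∏ k, gn π k ^ (A0 e k).val := by
  rw [gp_eq']
  show pD π e = w ^ (0 : ZMod 3).val * (lam ^ (0 : ZMod 3).val * ∏ j, π j ^ (e j).val)
  rw [ZMod.val_zero, pow_zero, pow_zero, one_mul, one_mul]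
  rfl

/-- the character of `D` -/
lemma kc_d (hD : Dt π e) {u : QB} {a : GK i₀ → ZMod 3} (hTw : Tw hi (pD π e) u a) :
    Kc hi (∏ k, gn π k ^ (A0 e k).val) (fun σ => -a σ) := by
  rw [← d_form]
  exact kc_of hi (root_ne (hi := hi) (z := pD π e) (pr0 hD _) hTw.cube) hTw.cube hTw.act

lemma c_D (hS : S_SUPM) (hD : Dt π e) :
    c2 (pD π e) = ∑ j, e j * c2 (π j) ∧ c3 (pD π e) = ∑ j, e j * c3 (π j) := by
  unfold pD
  rw [(c_prod hS hD _).1, (c_prod hS hD _).2]
  exact ⟨Finset.sum_congr rfl fun j _ => by rw [ZMod.natCast_zmod_val],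
    Finset.sum_congr rfl fun j _ => by rw [ZMod.natCast_zmod_val]⟩

/-- the sum of the equations -/
lemma sum_zero (hREC : S_REC) (hD : Dt π e) (v : J → ZMod 3) :
    ∑ j, e j * ∑ i, e i * cs (π j) (π i) * (v i - v j) = 0 := by
  have h0 : ∑ j, e j * ∑ i, e i * cs (π j) (π i) * (v i - v j) =
      ∑ j, ∑ i, e j * (e i * cs (π j) (π i) * (v i - v j)) :=
    Finset.sum_congr rfl fun j _ => by rw [Finset.mul_sum]
  rw [h0]
  have h3 : ∑ j, ∑ i, e j * (e i * cs (π j) (π i) * (v i - v j)) =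
      -∑ j, ∑ i, e j * (e i * cs (π j) (π i) * (v i - v j)) := by
    conv_lhs => rw [Finset.sum_comm]
    rw [← Finset.sum_neg_distrib]
    refine Finset.sum_congr rfl fun i _ => ?_
    rw [← Finset.sum_neg_distrib]
    refine Finset.sum_congr rfl fun j _ => ?_
    by_cases hij : i = j
    · rw [hij, sub_self, mul_zero, mul_zero, neg_zero]
    · rw [hREC (π i) (π j) (hD.pq i) (hD.pq j) (hD.nd i j hij)]
      ring
  exact (by decide : ∀ x : ZMod 3, x = -x → x = 0) _ h3

/-- the norm modulo nine -/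
lemma c2_ne {D : Ei} (hD : (3 : Ei) ∣ D - 1) (h : c2 D ≠ 0) : ¬ (9 : ℤ) ∣ nr D - 1 := by
  rintro ⟨k, hk⟩
  apply h
  obtain ⟨x, hx⟩ := hD
  have e1 : D.re = 1 + 3 * x.re := by
    have := congrArg (fun z : Ei => z.re) hx
    simp only [Pool.Agent.E8helper85.CT3.three_eq, Pool.Agent.E8helper85.CT3.one_eq] at this
    simp at this
    linarith
  have e2 : D.im = 3 * x.im := by
    have := congrArg (fun z : Ei => z.im) hx
    simp only [Pool.Agent.E8helper85.CT3.three_eq, Pool.Agent.E8helper85.CT3.one_eq] at this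
    simp at this
    linarith
  have e3 : c2 D = ((-(x.re + x.im) : ℤ) : ZMod 3) := by
    unfold c2 xd Pool.Agent.E8helper20.CTK3.yd
    rw [e1, e2]
    have h1 : (1 + 3 * x.re - 1) / 3 = x.re := by omega
    have h2 : (3 * x.im) / 3 = x.im := by omega
    rw [h1, h2]
    push_cast
    ring
  rw [e3, ZMod.intCast_zmod_eq_zero_iff_dvd]
  unfold nr at hk
  rw [e1, e2] at hk
  have h5 : 3 * (2 * x.re - x.im) = 9 * (k - (x.re ^ 2 - x.re * x.im + x.im ^ 2)) := by
    linarith [hk]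
  push_cast
  omega

/-! ### the case `c2 D = 0` -/

theorem sel_ker0 (hS : S_SUPM) (hR : S_RAMM) (hL : S_LOCM3) (hD : Dt π e)
    (hc2 : c2 (pD π e) = 0) {u : QB} {a : GK i₀ → ZMod 3} (hTw : Tw hi (pD π e) u a)
    {h : GK i₀ → ZMod 3} (hc : IsLocallyConstant h) (hm : ∀ σ τ, h (σ * τ) = h σ + h τ)
    (hloc : ∀ (p : ℕ) [Fact p.Prime] (ι : QB →ₐ[ℚ] PadicAlgCl p), ∃ R, St1 hi ι a h R) :
    ∃ p : (J → ZMod 3) × ZMod 3, Eq0 π e p ∧
      Kc hi (∏ k, gn π k ^ (Y0 e p.2 p.1 k).val) h := by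
  have hka := kc_d hD hTw
  have hTw1 : Tw hi (1 * pD π e) u a := by rw [one_mul]; exact hTw
  obtain ⟨hR1, hR2, -⟩ := hR 1 1 1 (one_dvd _) (one_dvd _) J π e hD i₀ hi u a hTw1
  obtain ⟨z, hz, hzh⟩ := kum hi h hc hm
  obtain ⟨v₀, g, x, hu, ez⟩ := fac (π := π) z hz.1 (support hD hz hzh
    (fun p _ ι hp3 hpj τ σ hcc hτ => by
      obtain ⟨R, hR⟩ := hloc p ι
      exact (hR2 h p ι hp3 hpj R hR τ σ hcc hτ).2))
  rw [ez] at hzh
  obtain ⟨c, hc0⟩ := Pool.Agent.Y715.T.RecC.unit_form hu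
  obtain ⟨ι₃⟩ := exists_emb3
  obtain ⟨q, hq⟩ := prod_form hD x
  have hq' : ∏ j, π j ^ x j = 1 + 3 * q := by rw [← hq]; ring
  obtain ⟨hg, h3⟩ : 3 ∣ g ∧ c2 (1 + 3 * q) = -(c3 (pD π e) * (c.val : ℕ)) := by
    obtain ⟨R, hR⟩ := hloc 3 ι₃
    have hzh' := hzh
    rw [hq'] at hzh'
    exact hL i₀ hi (pD π e) (prod_form hD _) hc2 u a hTw h v₀ q g c.val hc0 hzh'
      inferInstance ι₃ R hR
  have hg0 : (g : ZMod 3) = 0 := (ZMod.natCast_eq_zero_iff _ _).2 hg
  -- the exponents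
  set X : Option (Option J) → ℕ := fun k => k.elim c.val (fun k' => k'.elim g x) with hX
  have hx : Kc hi (∏ k, gn π k ^ X k) h := by
    have e1 : ∏ k, gn π k ^ X k = w ^ c.val * (lam ^ g * ∏ j, π j ^ x j) := gp_eq' X
    have hz1 : Kc hi (w ^ c.val * (lam ^ g * ∏ j, π j ^ x j)) h := by
      have h0 : w ^ c.val * (lam ^ g * ∏ j, π j ^ x j) ≠ 0 := by
        rw [← e1]
        exact gp0 hD X
      rcases hc0 with hc1 | hc1
      · refine kc_unit h0 (Or.inl rfl) ?_
        rw [one_mul]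
        rw [hc1] at hzh
        rw [← mul_assoc]
        exact hzh
      · refine kc_unit h0 (Or.inr rfl) ?_
        rw [hc1] at hzh
        have e2 : -1 * (w ^ c.val * (lam ^ g * ∏ j, π j ^ x j)) =
            -w ^ c.val * lam ^ g * ∏ j, π j ^ x j := by ring
        rw [e2]
        exact hzh
    rw [e1]
    exact hz1
  set v : J → ZMod 3 := fun j => x j * e j with hv
  have hxv : ∀ j, (x j : ZMod 3) = e j * v j := by
    intro j
    have := esq hD j
    calc (x j : ZMod 3) = x j * (e j * e j) := by rw [this, mul_one]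
      _ = _ := by rw [hv]; ring
  have hX2 : ∀ k, (X k : ZMod 3) = Y0 e c v k := by
    intro k
    match k with
    | none =>
      show ((c.val : ℕ) : ZMod 3) = c
      rw [ZMod.natCast_zmod_val]
    | some none => exact hg0
    | some (some j) => exact hxv j
  refine ⟨(v, c), ⟨fun j => ?_, fun _ => ?_⟩, kc_exp (gn0 hD) (fun k => ?_) hx⟩
  · -- the equation at `π j`
    obtain ⟨p, hp, ι, hl⟩ := exists_emb hi (hD.pq j).prime
    have hp3 := odd_of hi ι (hD.pq j).prime hl (not_assoc_lam (hD.pq j))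
    obtain ⟨R, hR⟩ := hloc p ι
    obtain ⟨ε, hε⟩ := hR1 h j p ι hl R hR
    set n : ℕ := ε.val with hn
    have hn3 : (n : ZMod 3) = ε := ZMod.natCast_zmod_val _
    have hy := kc_mul (gp0 hD X) (pow_ne_zero n (gp0 hD _)) hx (kc_pow (gp0 hD _) hka n)
    have hy1 : ∀ (τ : Au p) (σ : GK i₀), Cmp ι τ σ → h σ + n * -a σ = 0 := by
      intro τ σ hcc
      rw [hε τ σ hcc, hn3]
      ring
    rw [gp_mul] at hy
    set y : Option (Option J) → ZMod 3 := fun i => X i + A0 e i * ε with hydef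
    have hy2 : Kc hi (∏ i, gn π i ^ (y i).val) (fun σ => h σ + n * -a σ) := by
      refine kc_exp (gn0 hD) (fun i => ?_) hy
      rw [ZMod.natCast_zmod_val, hydef]
      push_cast
      rw [hn3, ZMod.natCast_zmod_val]
    have hyj : y (some (some j)) = 0 := by
      have h1 := not_dvd_of_unr (cf_gp hD y) hy2 hp3 ι (hD.pq j).prime hl
        (fun τ σ hcc _ => hy1 τ σ hcc)
      by_contra hne
      apply h1
      refine dvd_trans (dvd_pow_self (π j) ?_) (Finset.dvd_prod_of_mem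
        (fun i => gn π i ^ (y i).val) (Finset.mem_univ (some (some j))))
      rwa [Ne, ZMod.val_eq_zero]
    have hεv : ε = -v j := by
      have h1 : (x j : ZMod 3) + e j * ε = 0 := hyj
      have h2 := esq hD j
      rw [hxv j] at h1
      linear_combination e j * h1 - (v j + ε) * h2
    have hyi : ∀ i, y (some (some i)) = e i * (v i - v j) := by
      intro i
      change (x i : ZMod 3) + e i * ε = _
      rw [hxv i, hεv]
      ring
    have hy0 : y (some none) = 0 := by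
      change (g : ZMod 3) + 0 * ε = _
      rw [hg0]
      ring
    have hyw : y none = c := by
      change ((c.val : ℕ) : ZMod 3) + 0 * ε = _
      rw [ZMod.natCast_zmod_val]
      ring
    have hcs := cs_form hS hD j y hyj (resid_kc hy2 hp3 ι (hD.pq j).prime hl hy1)
    rw [hyw, hy0] at hcs
    simp only [hyi] at hcs
    have e3 : ∑ i, e i * (v i - v j) * cs (π j) (π i) =
        ∑ i, e i * cs (π j) (π i) * (v i - v j) :=
      Finset.sum_congr rfl fun i _ => by ring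
    rw [e3] at hcs
    show ∑ i, e i * cs (π j) (π i) * (v i - v j) + c * c2 (π j) = 0
    linear_combination hcs
  · -- the equation at three
    rw [← hq', (c_prod hS hD x).1, ZMod.natCast_zmod_val, (c_D hS hD).2] at h3
    have h4 : ∑ j, (x j : ZMod 3) * c2 (π j) = ∑ j, e j * c2 (π j) * v j := by
      refine Finset.sum_congr rfl fun j _ => ?_
      rw [hxv j]
      ring
    rw [h4] at h3
    show ∑ j, e j * c2 (π j) * v j + (∑ j, e j * c3 (π j)) * c = 0
    linear_combination h3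
  · rw [ZMod.natCast_zmod_val]
    exact hX2 k

/-- the data are determined by the character -/
theorem uniq0 (hD : Dt π e) {p p' : (J → ZMod 3) × ZMod 3} {h : GK i₀ → ZMod 3}
    (h1 : Kc hi (∏ k, gn π k ^ (Y0 e p.2 p.1 k).val) h)
    (h2 : Kc hi (∏ k, gn π k ^ (Y0 e p'.2 p'.1 k).val) h) : p = p' := by
  have hy := kc_mul (gp0 hD _) (pow_ne_zero 2 (gp0 hD _)) h1 (kc_pow (gp0 hD _) h2 2)
  rw [gp_mul] at hy
  have t3 : (3 : ZMod 3) = 0 := by decide
  have h3 : ∀ k, Y0 e p.2 p.1 k = Y0 e p'.2 p'.1 k := by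
    intro k
    have h5 := exp2 hD _ hy (fun σ => by
      show h σ + ((2 : ℕ) : ZMod 3) * h σ = 0
      push_cast
      linear_combination (h σ) * t3) k
    push_cast at h5
    rw [ZMod.natCast_zmod_val, ZMod.natCast_zmod_val] at h5
    linear_combination h5 - (Y0 e p'.2 p'.1 k) * t3
  have hs : p.2 = p'.2 := h3 none
  refine Prod.ext (funext fun j => ?_) hs
  have h6 : e j * p.1 j = e j * p'.1 j := h3 (some (some j))
  have h7 := esq hD j
  linear_combination e j * h6 + (p'.1 j - p.1 j) * h7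

/-- a solution gives a locally solvable character -/
theorem kloc0 (hS : S_SUPM) (hR : S_RAMM) (hCUB3 : S_CUBM3) (hFF : S_FF)
    (hCUB : S_CUB) (hPT : S_PT) (hD : Dt π e) (hc2 : c2 (pD π e) = 0) {u : QB}
    {a : GK i₀ → ZMod 3} (hTw : Tw hi (pD π e) u a)
    {v : J → ZMod 3} {s : ZMod 3} (hv : Eq0 π e (v, s)) {h : GK i₀ → ZMod 3}
    (hKc : Kc hi (w ^ s.val * ∏ j, π j ^ (e j * v j).val) h)
    (p : ℕ) [Fact p.Prime] (ι : QB →ₐ[ℚ] PadicAlgCl p) : ∃ R, St1 hi ι a h R := by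
  have hB0 : w ^ s.val * (∏ j, π j ^ (e j * v j).val) ≠ 0 :=
    mul_ne_zero (pow_ne_zero _ w_unit.ne_zero) (pr0 hD _)
  have hD0 : pD π e ≠ 0 := pr0 hD _
  by_cases hp3 : p = 3
  · subst hp3
    refine hPT i₀ hi _ _ hB0 hD0 u a hTw _ hKc 3 ι
      (hCUB3 inferInstance (ι i₀) (iota_sq' hi ι) _ _ s.val (prod_form hD _)
        (prod_form hD _) hc2 ?_)
    have h1 := hv.2 (by rw [← (c_D hS hD).1]; exact hc2)
    simp only at h1
    rw [ZMod.natCast_zmod_val, (c_D hS hD).2, (c_prod hS hD _).1]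
    have h2 : ∑ j, (((e j * v j).val : ℕ) : ZMod 3) * c2 (π j) =
        ∑ j, e j * c2 (π j) * v j := by
      refine Finset.sum_congr rfl fun j _ => ?_
      rw [ZMod.natCast_zmod_val]
      ring
    rw [h2]
    linear_combination h1
  · by_cases hj : ∃ j, ‖ι (ev i₀ hi (π j))‖ < 1
    · obtain ⟨j, hj⟩ := hj
      have hTw1 : Tw hi (1 * pD π e) u a := by rw [one_mul]; exact hTw
      obtain ⟨-, -, hR3⟩ := hR 1 (w ^ s.val) 1 (one_dvd _) (w_dvd _ _) J π e hD i₀ hi
        u a hTw1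
      refine hR3 v h hKc j ?_ p ι hj
      have h9 := (hD.pq j).norm
      have hpj := (hD.pq j).prime
      have hnw := not_w hpj
      rw [cs_pow hpj h9 hnw, cs_one hpj h9, ZMod.natCast_zmod_val, cs_w hS (hD.pq j), zero_mul]
      have h1 := hv.1 j
      simp only at h1
      linear_combination h1
    · have hj' : ∀ j, ¬ ‖ev (ι i₀) (iota_sq' hi ι) (π j)‖ < 1 := by
        intro j h1
        apply hj
        refine ⟨j, ?_⟩
        rw [iota_ev]
        exact h1
      have h3 : ¬ ‖ev (ι i₀) (iota_sq' hi ι) (pD π e)‖ < 1 := not_lt_prod _ hj' _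
      have h5 : ¬ ‖ev (ι i₀) (iota_sq' hi ι) (w ^ s.val * ∏ j, π j ^ (e j * v j).val)‖ < 1 := by
        rw [map_mul, map_pow, norm_mul, not_lt_w, one_mul]
        exact not_lt_prod _ hj' _
      exact hPT i₀ hi _ _ hB0 hD0 u a hTw _ hKc p ι
        (hCUB hFF p hp3 (ι i₀) (iota_sq' hi ι) _ _ h5 h3)

/-- the solutions give Selmer characters -/
theorem ker_sel0 (hS : S_SUPM) (hR : S_RAMM) (hCUB3 : S_CUBM3) (hFF : S_FF)
    (hCUB : S_CUB) (hPT : S_PT) (hD : Dt π e) (hc2 : c2 (pD π e) = 0) {u : QB}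
    {a : GK i₀ → ZMod 3} (hTw : Tw hi (pD π e) u a)
    {p : (J → ZMod 3) × ZMod 3} (hv : Eq0 π e p) :
    ∃ h : GK i₀ → ZMod 3, h ∈ SelH hi a ∧
      Kc hi (∏ k, gn π k ^ (Y0 e p.2 p.1 k).val) h := by
  obtain ⟨v, s⟩ := p
  have hB0 : w ^ s.val * (∏ j, π j ^ (e j * v j).val) ≠ 0 :=
    mul_ne_zero (pow_ne_zero _ w_unit.ne_zero) (pr0 hD _)
  obtain ⟨β, a', hTw'⟩ := exists_tw (hi := hi) (w ^ s.val * ∏ j, π j ^ (e j * v j).val)
  have hm : ∀ σ τ : GK i₀, -a' (σ * τ) = -a' σ + -a' τ := by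
    intro σ τ
    rw [a_mul hB0 hTw' σ τ]
    ring
  have hc : IsLocallyConstant (fun σ : GK i₀ => -a' σ) :=
    (a_cont hB0 hTw').comp (fun c : ZMod 3 => -c)
  have hKc : Kc hi (w ^ s.val * ∏ j, π j ^ (e j * v j).val) (fun σ => -a' σ) :=
    kc_of hi (root_ne (hi := hi) hB0 hTw'.cube) hTw'.cube hTw'.act
  refine ⟨fun σ => -a' σ, ⟨hc, hm, fun p _ ι =>
    kloc0 hS hR hCUB3 hFF hCUB hPT hD hc2 hTw hv hKc p ι⟩, ?_⟩
  have e0 : w ^ s.val * (∏ j, π j ^ (e j * v j).val) =
      ∏ k : Option (Option J), gn π k ^ (Y0 e s v k).val := by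
    rw [gp_eq']
    show _ = w ^ s.val * (lam ^ (0 : ZMod 3).val * _)
    rw [ZMod.val_zero, pow_zero, one_mul]
    rfl
  rw [← e0]
  exact hKc

/-- **SELM0.** -/
theorem t_SELM0 : S_SELM0 := by
  intro hREC hS hR hL hCUB3 hFF hCUB hPT J _ _ π e hD i₀ hi u a hTw
  by_cases hc2 : c2 (pD π e) = 0
  · have h2 : ∀ x : {p : (J → ZMod 3) × ZMod 3 // Eq0 π e p},
        ∃ h : SelH hi a, Kc hi (∏ k, gn π k ^ (Y0 e x.1.2 x.1.1 k).val) h.1 := by
      rintro ⟨p, hp⟩
      obtain ⟨h, h3, h4⟩ := ker_sel0 hS hR hCUB3 hFF hCUB hPT hD hc2 hTw hp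
      exact ⟨⟨h, h3⟩, h4⟩
    choose f hf using h2
    have hbij : Function.Bijective f := by
      constructor
      · intro x y hxy
        exact Subtype.ext (uniq0 hD (hf x) (by rw [hxy]; exact hf y))
      · rintro ⟨h, hs⟩
        obtain ⟨hc, hm, hloc⟩ := id hs
        obtain ⟨p, hp, hk⟩ := sel_ker0 hS hR hL hD hc2 hTw hc hm hloc
        refine ⟨⟨p, hp⟩, ?_⟩
        have h5 : Kc hi (∏ k, gn π k ^ (Y0 e p.2 p.1 k).val) (f ⟨p, hp⟩).1 := hf ⟨p, hp⟩
        have h6 : ∀ σ, (f ⟨p, hp⟩).1 σ = h σ := fun σ => kc_uniq (gp0 hD _) h5 hk σ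
        exact Subtype.ext (funext h6)
    rw [← Nat.card_coe_set_eq, ← Nat.card_congr (Equiv.ofBijective f hbij)]
    rfl
  · rw [sel_card hD (c2_ne (prod_form hD _) hc2) hTw]
    have hne : ∑ j, e j * c2 (π j) ≠ 0 := by rw [← (c_D hS hD).1]; exact hc2
    have hbij : Function.Bijective
        (fun v : KerV π e => (⟨(v.1, 0), ⟨fun j => by
          have h1 : ∑ i, e i * cs (π j) (π i) * (v.1 i - v.1 j) = 0 := v.2 j
          show ∑ i, e i * cs (π j) (π i) * (v.1 i - v.1 j) + 0 * c2 (π j) = 0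
          rw [h1, zero_mul, add_zero], fun h => absurd h hne⟩⟩ :
          {p : (J → ZMod 3) × ZMod 3 // Eq0 π e p})) := by
      constructor
      · intro v v' h
        have h1 := congrArg (fun x => x.1.1) h
        exact Subtype.ext h1
      · rintro ⟨⟨v, s⟩, hv⟩
        have hs : s = 0 := by
          have h1 : ∑ j, e j * (∑ i, e i * cs (π j) (π i) * (v i - v j) + s * c2 (π j)) = 0 :=
            Finset.sum_eq_zero fun j _ => by
              have := hv.1 j
              simp only at this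
              rw [this, mul_zero]
          have h2 : ∑ j, e j * (∑ i, e i * cs (π j) (π i) * (v i - v j) + s * c2 (π j)) =
              ∑ j, e j * ∑ i, e i * cs (π j) (π i) * (v i - v j) +
                s * ∑ j, e j * c2 (π j) := by
            rw [Finset.mul_sum, ← Finset.sum_add_distrib]
            exact Finset.sum_congr rfl fun j _ => by ring
          rw [h2, sum_zero hREC hD v, zero_add] at h1
          rcases mul_eq_zero.1 h1 with h3 | h3
          · exact h3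
          · exact absurd h3 hne
        subst hs
        refine ⟨⟨v, fun j => ?_⟩, rfl⟩
        have := hv.1 j
        simp only [zero_mul, add_zero] at this
        exact this
    rw [← Nat.card_coe_set_eq, Nat.card_congr (Equiv.ofBijective _ hbij)]
    rfl

end Pool.Agent.E8helper44.CTM
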